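import Mathlib

/-!
Wall lemma for families avoiding one intersection size, and its consequences (MP_28c1b3_co, literal reading,
helper module of the two-sided count).

`low t R C` is the set of members of `R` that meet some member of `C` in fewer than `t` elements.
-/

open Finset

namespace Pool.Agent.H91.LT

variable {α : Type*} [DecidableEq α]

/-- The members of `R` meeting some member of `C` in fewer than `t` elements. -/
def low (t : ℕ) (R C : Finset (Finset α)) : Finset (Finset α) :=
  R.filter (fun S => ∃ c ∈ C, (S ∩ c).card < t)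

lemma mem_low {t : ℕ} {R C : Finset (Finset α)} {S : Finset α} :
    S ∈ low t R C ↔ S ∈ R ∧ ∃ c ∈ C, (S ∩ c).card < t := by
  unfold low
  rw [mem_filter]

/-- **Wall lemma.**  No member of `G` meets a member of `C` in exactly `t` elements, the members of `C` have
at least `s` elements, and every member of `G` meets some member of `C` in fewer than `t` elements: then
`|G| (s + 1 - t) ≤ 2^t 2^|Y|`. -/
theorem wall {Y : Finset α} {t s : ℕ} {G C : Finset (Finset α)} (hG : ∀ S ∈ G, S ⊆ Y)
    (hC : ∀ c ∈ C, c ⊆ Y) (hne : ∀ S ∈ G, ∀ c ∈ C, (S ∩ c).card ≠ t) (hs : ∀ c ∈ C, s ≤ c.card)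
    (hlow : ∀ S ∈ G, ∃ c ∈ C, (S ∩ c).card < t) :
    G.card * (s + 1 - t) ≤ 2 ^ Y.card * 2 ^ t := by
  classical
  rcases Nat.lt_or_ge s t with hst | hst
  · have h0 : s + 1 - t = 0 := by omega
    rw [h0, Nat.mul_zero]
    exact Nat.zero_le _
  have hex : ∀ S : Finset α, ∃ c : Finset α, S ∈ G → (c ∈ C ∧ (S ∩ c).card < t ∧
      ∀ c' ∈ C, (S ∩ c').card < t → (S ∩ c').card ≤ (S ∩ c).card) := by
    intro S
    by_cases hS : S ∈ G
    · obtain ⟨c0, hc0, hlt0⟩ := hlow S hS
      obtain ⟨c, hc, hmax⟩ := Finset.exists_max_image (C.filter (fun c => (S ∩ c).card < t))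
        (fun c => (S ∩ c).card) ⟨c0, mem_filter.2 ⟨hc0, hlt0⟩⟩
      refine ⟨c, fun _ => ⟨(mem_filter.1 hc).1, (mem_filter.1 hc).2, fun c' hc' hlt => ?_⟩⟩
      exact hmax c' (mem_filter.2 ⟨hc', hlt⟩)
    · exact ⟨∅, fun h => absurd h hS⟩
  choose c hcP using hex
  have key := Finset.card_mul_le_card_mul
    (s := G) (t := Y.powerset) (m := s + 1 - t) (n := 2 ^ t)
    (fun S X => S ⊆ X ∧ X \ S ⊆ c S ∧ (X \ S).card + (S ∩ c S).card = t) ?_ ?_
  · rw [card_powerset] at key
    exact key
  · intro S hS
    obtain ⟨hcC, hclt, hcmax⟩ := hcP S hS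
    have hc1 := hs _ hcC
    have hc2 : (c S \ S).card + (S ∩ c S).card = (c S).card := by
      rw [inter_comm]
      exact card_sdiff_add_card_inter (c S) S
    obtain ⟨D0, hD0, hD0c⟩ := Finset.exists_subset_card_eq
      (show t - 1 - (S ∩ c S).card ≤ (c S \ S).card by omega)
    have hcard : s + 1 - t ≤ ((c S \ S) \ D0).card := by
      rw [card_sdiff_of_subset hD0, hD0c]
      omega
    refine hcard.trans ?_
    refine Finset.card_le_card_of_injOn (fun y => S ∪ insert y D0) ?_ ?_
    · intro y hy
      rw [mem_coe] at hy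
      have hy1 := (mem_sdiff.1 hy).1
      have hy2 := (mem_sdiff.1 hy).2
      have hins : insert y D0 ⊆ c S \ S := insert_subset hy1 hD0
      have hdis : Disjoint S (insert y D0) :=
        Finset.disjoint_left.2 fun x hx hx2 => (mem_sdiff.1 (hins hx2)).2 hx
      have hsd : (S ∪ insert y D0) \ S = insert y D0 := by
        rw [union_sdiff_left]
        exact sdiff_eq_self_of_disjoint hdis.symm
      rw [mem_coe]
      unfold Finset.bipartiteAbove
      rw [mem_filter, mem_powerset]
      refine ⟨union_subset (hG S hS) (hins.trans (sdiff_subset.trans (hC _ hcC))), subset_union_left,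
        ?_, ?_⟩
      · rw [hsd]
        exact hins.trans sdiff_subset
      · rw [hsd, card_insert_of_notMem hy2, hD0c]
        omega
    · intro y hy y' hy' he
      rw [mem_coe] at hy hy'
      have hy1 := mem_sdiff.1 (mem_sdiff.1 hy).1
      have hyD := (mem_sdiff.1 hy).2
      have he' : S ∪ insert y D0 = S ∪ insert y' D0 := he
      have hmem : y ∈ S ∪ insert y' D0 := by
        rw [← he']
        exact mem_union_right _ (mem_insert_self y D0)
      rcases mem_union.1 hmem with h1 | h1
      · exact absurd h1 hy1.2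
      · rcases mem_insert.1 h1 with h2 | h2
        · exact h2
        · exact absurd h2 hyD
  · intro X hX
    rcases (G.bipartiteBelow (fun S X => S ⊆ X ∧ X \ S ⊆ c S ∧ (X \ S).card + (S ∩ c S).card = t)
      X).eq_empty_or_nonempty with h0 | ⟨S1, hS1⟩
    · rw [h0]
      exact Nat.zero_le _
    · have hS1' := hS1
      unfold Finset.bipartiteBelow at hS1'
      rw [mem_filter] at hS1'
      obtain ⟨hS1G, hsub1, hsd1, hcard1⟩ := hS1'
      obtain ⟨hcC1, hclt1, hcmax1⟩ := hcP S1 hS1G
      have hXc : (X ∩ c S1).card = t := by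
        have h1 : X ∩ c S1 = (X \ S1) ∪ (S1 ∩ c S1) := by
          ext x
          simp only [mem_inter, mem_union, mem_sdiff]
          constructor
          · rintro ⟨h2, h3⟩
            by_cases h4 : x ∈ S1
            · exact Or.inr ⟨h4, h3⟩
            · exact Or.inl ⟨h2, h4⟩
          · rintro (h2 | h2)
            · exact ⟨h2.1, hsd1 (mem_sdiff.2 h2)⟩
            · exact ⟨hsub1 h2.1, h2.2⟩
        rw [h1, card_union_of_disjoint, hcard1]
        exact Finset.disjoint_left.2 fun x hx hx2 => (mem_sdiff.1 hx).2 (mem_inter.1 hx2).1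
      have hle : (G.bipartiteBelow (fun S X => S ⊆ X ∧ X \ S ⊆ c S ∧
          (X \ S).card + (S ∩ c S).card = t) X).card ≤ ((X ∩ c S1).powerset).card := by
        refine Finset.card_le_card_of_injOn (fun S => X \ S) ?_ ?_
        · intro S hS
          rw [mem_coe] at hS
          unfold Finset.bipartiteBelow at hS
          rw [mem_filter] at hS
          obtain ⟨hSG, hsub, hsd, hcard⟩ := hS
          obtain ⟨hcC, hclt, hcmax⟩ := hcP S hSG
          rw [mem_coe, mem_powerset]
          have h1 : (S ∩ c S1).card + ((X \ S) ∩ c S1).card = t := by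
            have h2 : X ∩ c S1 = (S ∩ c S1) ∪ ((X \ S) ∩ c S1) := by
              ext x
              simp only [mem_inter, mem_union, mem_sdiff]
              constructor
              · rintro ⟨h2, h3⟩
                by_cases h4 : x ∈ S
                · exact Or.inl ⟨h4, h3⟩
                · exact Or.inr ⟨⟨h2, h4⟩, h3⟩
              · rintro (h2 | h2)
                · exact ⟨hsub h2.1, h2.2⟩
                · exact ⟨h2.1.1, h2.2⟩
            rw [h2, card_union_of_disjoint] at hXc
            · exact hXc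
            · exact Finset.disjoint_left.2 fun x hx hx2 =>
                (mem_sdiff.1 (mem_inter.1 hx2).1).2 (mem_inter.1 hx).1
          have h3 := hne S hSG _ hcC1
          have h4 := hcmax _ hcC1 (by omega)
          have h5 : (X \ S).card ≤ ((X \ S) ∩ c S1).card := by omega
          have h6 : (X \ S) ∩ c S1 = X \ S := Finset.eq_of_subset_of_card_le inter_subset_left h5
          intro x hx
          have hx' : x ∈ (X \ S) ∩ c S1 := by rw [h6]; exact hx
          exact mem_inter.2 ⟨(mem_sdiff.1 hx).1, (mem_inter.1 hx').2⟩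
        · intro S hS S' hS' he
          rw [mem_coe] at hS hS'
          unfold Finset.bipartiteBelow at hS hS'
          rw [mem_filter] at hS hS'
          have he' : X \ S = X \ S' := he
          have e1 : X \ (X \ S) = S := Finset.sdiff_sdiff_eq_self hS.2.1
          have e2 : X \ (X \ S') = S' := Finset.sdiff_sdiff_eq_self hS'.2.1
          rw [← e1, ← e2, he']
      rw [card_powerset, hXc] at hle
      exact hle

/-- Few members of `R` meet some member of `C` in fewer than `t` elements. -/
theorem low_card {Y : Finset α} {t s : ℕ} {R C : Finset (Finset α)} (hR : ∀ S ∈ R, S ⊆ Y)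
    (hC : ∀ c ∈ C, c ⊆ Y) (hne : ∀ S ∈ R, ∀ c ∈ C, (S ∩ c).card ≠ t) (hs : ∀ c ∈ C, s ≤ c.card) :
    (low t R C).card * (s + 1 - t) ≤ 2 ^ Y.card * 2 ^ t :=
  wall (fun S hS => hR S (mem_low.1 hS).1) hC (fun S hS => hne S (mem_low.1 hS).1) hs
    (fun _ hS => (mem_low.1 hS).2)

/-- A family whose members pairwise (equal or not) meet in at least `t ≥ 1` elements: sets together with
their complements. -/
theorem two_card {Y : Finset α} {t : ℕ} (ht : 1 ≤ t) {R : Finset (Finset α)}
    (hR : ∀ S ∈ R, S ⊆ Y) (hi : ∀ S ∈ R, ∀ S' ∈ R, t ≤ (S ∩ S').card) :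
    2 * R.card + (Y.powerset.filter (fun P => P ∉ R ∧ Y \ P ∉ R)).card = 2 ^ Y.card := by
  classical
  have h1 : (R.image (fun S => Y \ S)).card = R.card := by
    refine Finset.card_image_of_injOn ?_
    intro S hS S' hS' he
    rw [mem_coe] at hS hS'
    have he' : Y \ S = Y \ S' := he
    rw [← Finset.sdiff_sdiff_eq_self (hR S hS), ← Finset.sdiff_sdiff_eq_self (hR S' hS'), he']
  have h2 : Disjoint R (R.image (fun S => Y \ S)) := by
    rw [Finset.disjoint_left]
    intro S hS hS2
    obtain ⟨S', hS', he⟩ := mem_image.1 hS2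
    have h3 := hi S hS S' hS'
    have h4 : S ∩ S' = ∅ := by
      rw [← he]
      exact Finset.sdiff_inter_self S' Y
    rw [h4, card_empty] at h3
    omega
  have h3 : Y.powerset = (R ∪ R.image (fun S => Y \ S)) ∪
      (Y.powerset.filter (fun P => P ∉ R ∧ Y \ P ∉ R)) := by
    ext P
    simp only [mem_union, mem_image, mem_filter, mem_powerset]
    constructor
    · intro hP
      by_cases h4 : P ∈ R
      · exact Or.inl (Or.inl h4)
      · by_cases h5 : Y \ P ∈ R
        · exact Or.inl (Or.inr ⟨Y \ P, h5, Finset.sdiff_sdiff_eq_self hP⟩)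
        · exact Or.inr ⟨hP, h4, h5⟩
    · rintro ((h4 | ⟨S, hS, he⟩) | h4)
      · exact hR P h4
      · rw [← he]
        exact sdiff_subset
      · exact h4.1
  have h4 : Disjoint (R ∪ R.image (fun S => Y \ S))
      (Y.powerset.filter (fun P => P ∉ R ∧ Y \ P ∉ R)) := by
    rw [Finset.disjoint_left]
    intro P hP hP2
    obtain ⟨hPY, hn1, hn2⟩ := mem_filter.1 hP2
    rcases mem_union.1 hP with h5 | h5
    · exact hn1 h5
    · obtain ⟨S, hS, he⟩ := mem_image.1 h5
      apply hn2
      rw [← he, Finset.sdiff_sdiff_eq_self (hR S hS)]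
      exact hS
  have h5 := congrArg Finset.card h3
  rw [card_powerset, card_union_of_disjoint h4, card_union_of_disjoint h2, h1] at h5
  omega

/-- The core of `R` relative to `C`: members meeting every member of `R` and of `C` in at least `t`
elements. -/
def core (t : ℕ) (R C : Finset (Finset α)) : Finset (Finset α) := R \ (low t R C ∪ low t R R)

lemma mem_core {t : ℕ} {R C : Finset (Finset α)} {S : Finset α} :
    S ∈ core t R C ↔ S ∈ R ∧ (∀ c ∈ C, t ≤ (S ∩ c).card) ∧ ∀ c ∈ R, t ≤ (S ∩ c).card := by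
  unfold core
  rw [mem_sdiff, mem_union, mem_low, mem_low]
  constructor
  · rintro ⟨h1, h2⟩
    push Not at h2
    exact ⟨h1, h2.1 h1, h2.2 h1⟩
  · rintro ⟨h1, h2, h3⟩
    refine ⟨h1, ?_⟩
    rintro (⟨-, c, hc, hlt⟩ | ⟨-, c, hc, hlt⟩)
    · exact absurd (h2 c hc) (by omega)
    · exact absurd (h3 c hc) (by omega)

/-- Almost all of `R` is in the core. -/
theorem core_card {Y : Finset α} {t s : ℕ} {R C : Finset (Finset α)} (hR : ∀ S ∈ R, S ⊆ Y)
    (hC : ∀ c ∈ C, c ⊆ Y) (hav : ∀ S ∈ R, ∀ c ∈ R, (S ∩ c).card ≠ t)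
    (hne : ∀ S ∈ R, ∀ c ∈ C, (S ∩ c).card ≠ t) (hsR : ∀ c ∈ R, s ≤ c.card)
    (hsC : ∀ c ∈ C, s ≤ c.card) :
    R.card * (s + 1 - t) ≤ (core t R C).card * (s + 1 - t) + 2 * (2 ^ Y.card * 2 ^ t) := by
  have h1 := low_card hR hC hne hsC
  have h2 := low_card hR hR hav hsR
  have h3 : R.card ≤ (core t R C).card + ((low t R C).card + (low t R R).card) := by
    have h4 : R ⊆ core t R C ∪ (low t R C ∪ low t R R) := by
      intro S hS
      unfold core
      by_cases h5 : S ∈ low t R C ∪ low t R R
      · exact mem_union_right _ h5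
      · exact mem_union_left _ (mem_sdiff.2 ⟨hS, h5⟩)
    refine (card_le_card h4).trans ((card_union_le _ _).trans ?_)
    exact Nat.add_le_add_left (card_union_le _ _) _
  calc R.card * (s + 1 - t) ≤ ((core t R C).card + ((low t R C).card + (low t R R).card)) *
        (s + 1 - t) := Nat.mul_le_mul_right _ h3
    _ = (core t R C).card * (s + 1 - t) + ((low t R C).card * (s + 1 - t) +
        (low t R R).card * (s + 1 - t)) := by ring
    _ ≤ _ := by omega

/-- A strongly `t`-avoiding family with members of size `≥ s` has at most `(1/2 + 2^t/(s+1-t)) 2^|Y|`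
members. -/
theorem half_card {Y : Finset α} {t s : ℕ} (ht : 1 ≤ t) {R : Finset (Finset α)}
    (hR : ∀ S ∈ R, S ⊆ Y) (hav : ∀ S ∈ R, ∀ c ∈ R, (S ∩ c).card ≠ t) (hsR : ∀ c ∈ R, s ≤ c.card) :
    2 * R.card * (s + 1 - t) ≤ 2 ^ Y.card * (s + 1 - t) + 2 * (2 ^ Y.card * 2 ^ t) := by
  have h2 := low_card hR hR hav hsR
  have h3 : ∀ S ∈ R \ low t R R, ∀ c ∈ R, t ≤ (S ∩ c).card := by
    intro S hS c hc
    by_contra hlt
    exact (mem_sdiff.1 hS).2 (mem_low.2 ⟨(mem_sdiff.1 hS).1, c, hc, by omega⟩)
  have h4 := two_card (Y := Y) ht (R := R \ low t R R) (fun S hS => hR S (mem_sdiff.1 hS).1)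
    (fun S hS S' hS' => h3 S hS S' (mem_sdiff.1 hS').1)
  have h5 : R.card ≤ (R \ low t R R).card + (low t R R).card := by
    rw [card_sdiff_add_card]
    exact card_le_card subset_union_left
  have h6 : 2 * R.card ≤ 2 ^ Y.card + 2 * (low t R R).card := by omega
  calc 2 * R.card * (s + 1 - t) ≤ (2 ^ Y.card + 2 * (low t R R).card) * (s + 1 - t) :=
        Nat.mul_le_mul_right _ h6
    _ = 2 ^ Y.card * (s + 1 - t) + 2 * ((low t R R).card * (s + 1 - t)) := by ring
    _ ≤ _ := by omega

/-- Traces.  If the members of `R` pairwise meet in at least `t` elements and `|K| < t`, the members disjoint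
from `K` are at least `|R| - (2^|K| - 1) 2^(|Y|-|K|) / 2`. -/
theorem trace_card {Y K : Finset α} {t : ℕ} (hK : K ⊆ Y) (hKt : K.card < t)
    {R : Finset (Finset α)} (hR : ∀ S ∈ R, S ⊆ Y) (hi : ∀ S ∈ R, ∀ S' ∈ R, t ≤ (S ∩ S').card) :
    2 * R.card ≤ 2 * (R.filter (fun S => Disjoint S K)).card +
      (2 ^ K.card - 1) * 2 ^ (Y.card - K.card) := by
  classical
  -- each trace class has at most half of all sets
  have hE : ∀ E ∈ K.powerset, 2 * (R.filter (fun S => S ∩ K = E)).card ≤ 2 ^ (Y.card - K.card) := by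
    intro E hE
    rw [mem_powerset] at hE
    have h1 : ((R.filter (fun S => S ∩ K = E)).image (fun S => S \ K)).card =
        (R.filter (fun S => S ∩ K = E)).card := by
      refine Finset.card_image_of_injOn ?_
      intro S hS S' hS' he
      rw [mem_coe, mem_filter] at hS hS'
      have he' : S \ K = S' \ K := he
      rw [← sdiff_union_inter S K, ← sdiff_union_inter S' K, he', hS.2, hS'.2]
    have h2 : ((R.filter (fun S => S ∩ K = E)).image (fun S => (Y \ K) \ S)).card =
        (R.filter (fun S => S ∩ K = E)).card := by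
      refine Finset.card_image_of_injOn ?_
      intro S hS S' hS' he
      rw [mem_coe, mem_filter] at hS hS'
      have he' : (Y \ K) \ S = (Y \ K) \ S' := he
      have e : ∀ T ∈ R, T ∩ K = E → T = ((Y \ K) \ ((Y \ K) \ T)) ∪ E := by
        intro T hT hTE
        ext x
        rw [← hTE]
        simp only [mem_union, mem_sdiff, mem_inter]
        constructor
        · intro hx
          by_cases hxK : x ∈ K
          · exact Or.inr ⟨hx, hxK⟩
          · exact Or.inl ⟨⟨hR T hT hx, hxK⟩, fun hh => hh.2 hx⟩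
        · rintro (⟨⟨h3, h4⟩, h5⟩ | h3)
          · by_contra h6
            exact h5 ⟨⟨h3, h4⟩, h6⟩
          · exact h3.1
      rw [e S hS.1 hS.2, e S' hS'.1 hS'.2, he']
    have h3 : Disjoint ((R.filter (fun S => S ∩ K = E)).image (fun S => S \ K))
        ((R.filter (fun S => S ∩ K = E)).image (fun S => (Y \ K) \ S)) := by
      rw [Finset.disjoint_left]
      intro P hP hP2
      obtain ⟨S, hS, he⟩ := mem_image.1 hP
      obtain ⟨S', hS', he'⟩ := mem_image.1 hP2
      rw [mem_filter] at hS hS'
      have h4 := hi S hS.1 S' hS'.1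
      have h5 : S ∩ S' ⊆ K := by
        intro x hx
        rw [mem_inter] at hx
        by_contra hxK
        have h6 : x ∈ P := by
          rw [← he]
          exact mem_sdiff.2 ⟨hx.1, hxK⟩
        rw [← he'] at h6
        exact (mem_sdiff.1 h6).2 hx.2
      have h6 := card_le_card h5
      omega
    have h4 : ((R.filter (fun S => S ∩ K = E)).image (fun S => S \ K)) ∪
        ((R.filter (fun S => S ∩ K = E)).image (fun S => (Y \ K) \ S)) ⊆ (Y \ K).powerset := by
      refine union_subset ?_ ?_
      · intro P hP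
        obtain ⟨S, hS, he⟩ := mem_image.1 hP
        rw [mem_filter] at hS
        rw [mem_powerset, ← he]
        exact sdiff_subset_sdiff (hR S hS.1) (Subset.refl K)
      · intro P hP
        obtain ⟨S, hS, he⟩ := mem_image.1 hP
        rw [mem_powerset, ← he]
        exact sdiff_subset
    have h5 := card_le_card h4
    rw [card_union_of_disjoint h3, h1, h2, card_powerset, card_sdiff_of_subset hK] at h5
    omega
  have hsum : R.card = ∑ E ∈ K.powerset, (R.filter (fun S => S ∩ K = E)).card := by
    refine Finset.card_eq_sum_card_fiberwise ?_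
    intro S hS
    rw [mem_coe, mem_powerset]
    exact inter_subset_right
  have hemp : (R.filter (fun S => S ∩ K = ∅)) = (R.filter (fun S => Disjoint S K)) := by
    ext S
    simp only [mem_filter, disjoint_iff_inter_eq_empty]
  have hmem : (∅ : Finset α) ∈ K.powerset := by
    rw [mem_powerset]
    exact empty_subset K
  rw [hsum, ← Finset.add_sum_erase _ _ hmem, hemp, Nat.mul_add]
  refine Nat.add_le_add_left ?_ _
  rw [mul_sum]
  refine (Finset.sum_le_sum (fun E hE' => hE E (mem_of_mem_erase hE'))).trans ?_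
  rw [sum_const, card_erase_of_mem hmem, card_powerset, smul_eq_mul]

/-- Good slots with kernel `K`, `|K| < t`: the part `P` of a pair `(A, B)`, `A ∈ R`, `A ⊆ K ∪ P`, `B ∈ C`,
`B ⊆ Y \ P`, is, with its complement, outside the core. -/
theorem slot_card {Y K : Finset α} {t : ℕ} (hKt : K.card < t)
    {R C : Finset (Finset α)} (hR : ∀ S ∈ R, S ⊆ Y) :
    ((Y \ K).powerset.filter (fun P => (∃ A ∈ R, A ⊆ K ∪ P) ∧ ∃ B ∈ C, B ⊆ Y \ P)).card +
      2 * (core t R C).card ≤ 2 ^ Y.card := by
  classical
  have h1 := two_card (Y := Y) (t := t) (by omega) (R := core t R C)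
    (fun S hS => hR S (mem_core.1 hS).1)
    (fun S hS S' hS' => (mem_core.1 hS).2.2 S' (mem_core.1 hS').1)
  have h2 : ((Y \ K).powerset.filter (fun P => (∃ A ∈ R, A ⊆ K ∪ P) ∧ ∃ B ∈ C, B ⊆ Y \ P)).card ≤
      (Y.powerset.filter (fun P => P ∉ core t R C ∧ Y \ P ∉ core t R C)).card := by
    refine card_le_card ?_
    intro P hP
    rw [mem_filter, mem_powerset] at hP
    obtain ⟨hP1, ⟨A, hA, hAP⟩, ⟨B, hB, hBP⟩⟩ := hP
    rw [mem_filter, mem_powerset]
    refine ⟨hP1.trans sdiff_subset, ?_, ?_⟩
    · intro hc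
      have h3 := (mem_core.1 hc).2.1 B hB
      have h4 : P ∩ B = ∅ := by
        rw [← Finset.disjoint_iff_inter_eq_empty]
        exact Finset.disjoint_left.2 fun x hx hx2 => (mem_sdiff.1 (hBP hx2)).2 hx
      rw [h4, card_empty] at h3
      omega
    · intro hc
      have h3 := (mem_core.1 hc).2.2 A hA
      have h4 : (Y \ P) ∩ A ⊆ K := by
        intro x hx
        rw [mem_inter, mem_sdiff] at hx
        rcases mem_union.1 (hAP hx.2) with h5 | h5
        · exact h5
        · exact absurd h5 hx.1.2
      have h5 := card_le_card h4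
      omega
  omega

end Pool.Agent.H91.LT
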